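import Pool.Agent.Helper87.FT.Field

/-!
# The exceptional tuples of elements of a number field lie on a chain of subspaces
-/

open Pool.Agent.Helper18.RC

namespace Pool.Agent.Helper87.FT

/-- `θ` and the numbers `exp (θ β_j)` with `j < i`. -/
noncomputable def gens {n : ℕ} (K : IntermediateField ℚ ℂ) (θ : ℂ) (i : Fin n) (β : Fin n → K) :
    Fin n → ℂ := fun k =>
  if h : 0 < (k : ℕ) ∧ (k : ℕ) ≤ (i : ℕ) then
    Complex.exp (θ * ((β ⟨(k : ℕ) - 1, by omega⟩ : K) : ℂ)) else θ

theorem gens_congr {n : ℕ} (K : IntermediateField ℚ ℂ) (θ : ℂ) (i : Fin n) (β β' : Fin n → K)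
    (h : ∀ j < i, β j = β' j) : gens K θ i β = gens K θ i β' := by
  funext k
  unfold gens
  by_cases hk : 0 < (k : ℕ) ∧ (k : ℕ) ≤ (i : ℕ)
  · rw [dif_pos hk, dif_pos hk, h _ (by rw [Fin.lt_def]; simp only; omega)]
  · rw [dif_neg hk, dif_neg hk]

theorem chain {n : ℕ} (K : IntermediateField ℚ ℂ) (θ : ℂ) (hθ : Transcendental ℚ θ)
    (β : Fin n → K) (hβ : ∀ i, β i ∉ badSpace K θ 1 (gens K θ i β)) :
    ∀ (p : ℕ) (hp : p ≤ n), AlgebraicIndependent ℚ (Fin.cons θ
      (fun j : Fin p => Complex.exp (θ * ((β (Fin.castLE hp j) : K) : ℂ))) : Fin (p + 1) → ℂ) := by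
  intro p
  induction p with
  | zero =>
    intro hp
    have h1 : (Fin.cons θ (fun j : Fin 0 => Complex.exp (θ * ((β (Fin.castLE hp j) : K) : ℂ))) :
        Fin (0 + 1) → ℂ) = ![θ] := by
      funext i
      refine Fin.cases ?_ (fun j => j.elim0) i
      rfl
    rw [h1]
    exact (algebraicIndependent_iff_transcendental).2 hθ
  | succ p ih =>
    intro hp
    have ih' := ih (by omega)
    set i : Fin n := ⟨p, by omega⟩ with hi
    set x : Fin (p + 1) → ℂ := Fin.cons θ
      (fun j : Fin p => Complex.exp (θ * ((β (Fin.castLE (by omega) j) : K) : ℂ))) with hx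
    have hrange : Set.range x ⊆ Set.range (gens K θ i β) := by
      rintro _ ⟨k, rfl⟩
      refine Fin.cases ?_ (fun j => ?_) k
      · refine ⟨⟨0, by omega⟩, ?_⟩
        unfold gens
        rw [dif_neg (by simp)]
        rfl
      · refine ⟨⟨(j : ℕ) + 1, by omega⟩, ?_⟩
        unfold gens
        rw [dif_pos (by
          constructor
          · simp
          · rw [hi]; simp only; omega)]
        rw [hx, Fin.cons_succ]
        rfl
    have h5 := algInd_snoc x (Complex.exp (θ * ((β i : K) : ℂ))) ih' (fun h => by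
      apply hβ i
      rw [mem_badSpace, one_mul]
      exact h.mono hrange)
    convert h5 using 1
    rw [hx, ← Fin.cons_snoc_eq_snoc_cons]
    congr 1
    funext k
    refine Fin.lastCases ?_ (fun j => ?_) k
    · rw [Fin.snoc_last]
      rfl
    · rw [Fin.snoc_castSucc]
      rfl

end Pool.Agent.Helper87.FT
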