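import Pool.Agent.Helper87.FT.Rect
import Pool.Agent.Helper18.RC.VSpace
import Pool.Agent.Helper18.RC.HL

/-!
# Elements of a number field whose exponential is algebraic over a field of small transcendence degree

They form a subspace of large codimension (`codim`), which contains few points of a box (`points`).
-/

open Pool.Agent.Helper18.RC

namespace Pool.Agent.Helper87.FT

/-- The elements `x` of the field `K` with `exp (θ γ x)` algebraic over `ℚ(w)`. -/
def badSpace {t : ℕ} (K : IntermediateField ℚ ℂ) (θ γ : ℂ) (w : Fin t → ℂ) : Submodule ℚ K where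
  carrier := {x | AlgOver w (Complex.exp (θ * (γ * (x : ℂ))))}
  add_mem' := by
    intro a b ha hb
    have h := exp_lin (θ := θ) (u := γ * (a : ℂ)) (v := γ * (b : ℂ)) ha hb 1 1
    rw [Set.mem_setOf_eq]
    convert h using 3
    push_cast
    ring
  zero_mem' := by
    rw [Set.mem_setOf_eq]
    have : θ * (γ * ((0 : K) : ℂ)) = 0 := by simp
    rw [this, Complex.exp_zero]
    exact AlgOver.of_alg isAlgebraic_one
  smul_mem' := by
    intro c x hx
    have h := exp_lin (θ := θ) (u := γ * (x : ℂ)) (v := γ * (x : ℂ)) hx hx c 0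
    rw [Set.mem_setOf_eq]
    convert h using 3
    rw [IntermediateField.coe_smul, Rat.smul_def]
    push_cast
    ring

theorem mem_badSpace {t : ℕ} {K : IntermediateField ℚ ℂ} {θ γ : ℂ} {w : Fin t → ℂ} {x : K} :
    x ∈ badSpace K θ γ w ↔ AlgOver w (Complex.exp (θ * (γ * (x : ℂ)))) := Iff.rfl

/-- The bad space has codimension at least `⌊d / m⌋`. -/
theorem codim {t d : ℕ} (K : IntermediateField ℚ ℂ) (ω : Module.Basis (Fin d) ℚ K) {θ γ : ℂ}
    (hθ : θ ≠ 0) (hγ : IsAlgebraic ℚ γ) (hγ0 : γ ≠ 0) (w : Fin t → ℂ) :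
    Module.finrank ℚ (badSpace K θ γ w) + d / mm t t ≤ d := by
  haveI : FiniteDimensional ℚ K := Module.Finite.of_basis ω
  have hfr : Module.finrank ℚ K = d := by
    rw [Module.finrank_eq_card_basis ω, Fintype.card_fin]
  set m := mm t t with hm
  have hm1 : 1 ≤ m := by
    have := mm_ge t t
    omega
  set V := badSpace K θ γ w with hV
  by_contra hcon
  push Not at hcon
  have hq : Module.finrank ℚ (K ⧸ V) + Module.finrank ℚ V = d := by
    rw [← hfr]
    exact Submodule.finrank_quotient_add_finrank V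
  set c := d / m with hc
  have hcm : m * c ≤ d := Nat.mul_div_le d m
  have hqc : Module.finrank ℚ (K ⧸ V) + 1 ≤ c := by omega
  have hmd : m ≤ d := by
    have : m * 1 ≤ m * c := Nat.mul_le_mul_left m (by omega)
    omega
  set e : Fin m → K := fun i => ω (Fin.castLE hmd i) with he
  let Φ : K →ₗ[ℚ] (Fin m → K ⧸ V) :=
    LinearMap.pi (fun i => V.mkQ ∘ₗ LinearMap.mulLeft ℚ (e i))
  have hrange : Module.finrank ℚ (LinearMap.range Φ) ≤ m * Module.finrank ℚ (K ⧸ V) := by
    refine (Submodule.finrank_le _).trans (le_of_eq ?_)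
    rw [Module.finrank_pi_fintype]
    simp
  have hrk := LinearMap.finrank_range_add_finrank_ker Φ
  rw [hfr] at hrk
  have hmm : m * Module.finrank ℚ (K ⧸ V) + m ≤ m * c := by
    calc m * Module.finrank ℚ (K ⧸ V) + m = m * (Module.finrank ℚ (K ⧸ V) + 1) := by ring
      _ ≤ m * c := Nat.mul_le_mul_left m hqc
  have hker : m ≤ Module.finrank ℚ (LinearMap.ker Φ) := by omega
  set f : Fin m → K := fun j =>
    ((Module.finBasis ℚ (LinearMap.ker Φ) (Fin.castLE hker j) : LinearMap.ker Φ) : K) with hf
  have hfl : LinearIndependent ℚ f := by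
    have h1 := (Module.finBasis ℚ (LinearMap.ker Φ)).linearIndependent.comp _
      (Fin.castLE_injective hker)
    exact h1.map' (LinearMap.ker Φ).subtype (Submodule.ker_subtype _)
  have hel : LinearIndependent ℚ e := ω.linearIndependent.comp _ (Fin.castLE_injective hmd)
  have halg : ∀ x : K, IsAlgebraic ℚ (x : ℂ) := fun x =>
    (IsIntegral.of_finite ℚ x).isAlgebraic.algebraMap
  have hcoe : Function.Injective K.val.toLinearMap := K.val.injective
  have hel' : LinearIndependent ℚ (fun i => ((e i : K) : ℂ)) :=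
    hel.map' K.val.toLinearMap (LinearMap.ker_eq_bot.2 hcoe)
  have hfl' : LinearIndependent ℚ (fun j => γ * ((f j : K) : ℂ)) := by
    have h1 := (hfl.map' K.val.toLinearMap (LinearMap.ker_eq_bot.2 hcoe)).map'
      (LinearMap.mulLeft ℚ γ) (LinearMap.ker_eq_bot.2 (by
        intro a b hab
        simp only [LinearMap.mulLeft_apply] at hab
        exact mul_left_cancel₀ hγ0 hab))
    exact h1
  refine rectangle_mm t θ hθ (fun i => ((e i : K) : ℂ)) (fun j => γ * ((f j : K) : ℂ))
    (fun i => halg _) (fun j => hγ.mul (halg _)) hel' hfl' w ?_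
  intro i j
  have h1 : Φ (f j) = 0 := (LinearMap.mem_ker).1
    (Module.finBasis ℚ (LinearMap.ker Φ) (Fin.castLE hker j)).2
  have h2 := congrFun h1 i
  simp only [Φ, LinearMap.pi_apply, LinearMap.comp_apply, LinearMap.mulLeft_apply, Pi.zero_apply,
    Submodule.mkQ_apply, Submodule.Quotient.mk_eq_zero] at h2
  rw [hV, mem_badSpace] at h2
  convert h2 using 2
  push_cast
  ring

/-- A subspace of dimension `r` contains the pairwise differences of at most `N ^ r` points of a box. -/
theorem points {M : Type*} [AddCommGroup M] [Module ℚ M] {d N : ℕ} (hN : 1 ≤ N)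
    (ω : Module.Basis (Fin d) ℚ M) : ∀ (r : ℕ) (V : Submodule ℚ M), Module.finrank ℚ V ≤ r →
    ∀ S : Finset (Fin d → Fin N), (∀ x ∈ S, ∀ y ∈ S,
      ∑ j, (((x j : ℕ) : ℚ) - ((y j : ℕ) : ℚ)) • ω j ∈ V) → S.card ≤ N ^ r := by
  haveI : FiniteDimensional ℚ M := Module.Finite.of_basis ω
  have hcoord : ∀ (x y : Fin d → Fin N) (j : Fin d),
      ω.coord j (∑ j, (((x j : ℕ) : ℚ) - ((y j : ℕ) : ℚ)) • ω j) =
        ((x j : ℕ) : ℚ) - ((y j : ℕ) : ℚ) := by
    intro x y j
    rw [map_sum]
    simp [Finsupp.single_apply]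
  intro r
  induction r with
  | zero =>
    intro V hV S hS
    have hbot : V = ⊥ := Submodule.finrank_eq_zero.1 (by omega)
    rw [pow_zero, Finset.card_le_one]
    intro x hx y hy
    have h1 := hS x hx y hy
    rw [hbot, Submodule.mem_bot] at h1
    funext j
    have h2 := hcoord x y j
    rw [h1, map_zero] at h2
    apply Fin.ext
    have h3 : ((x j : ℕ) : ℚ) = ((y j : ℕ) : ℚ) := by linarith
    exact_mod_cast h3
  | succ r ih =>
    intro V hV S hS
    rcases Nat.lt_or_ge (Module.finrank ℚ V) (r + 1) with h | h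
    · exact (ih V (by omega) S hS).trans (Nat.pow_le_pow_right hN (by omega))
    · have hne : V ≠ ⊥ := by
        intro hb
        rw [hb, finrank_bot] at h
        omega
      obtain ⟨v, hv, hv0⟩ := Submodule.exists_mem_ne_zero_of_ne_bot hne
      obtain ⟨j, hj⟩ : ∃ j, ω.coord j v ≠ 0 := by
        by_contra hc
        push Not at hc
        exact hv0 (ω.ext_elem (fun j => by simpa using hc j))
      set V' := V ⊓ LinearMap.ker (ω.coord j) with hV'
      have hlt : V' < V := by
        refine lt_of_le_of_ne inf_le_left ?_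
        intro heq
        have : v ∈ V' := by rw [heq]; exact hv
        exact hj (LinearMap.mem_ker.1 this.2)
      have hfr' : Module.finrank ℚ V' ≤ r := by
        have := Submodule.finrank_lt_finrank_of_lt hlt
        omega
      have hcard := Finset.card_le_mul_card_image_of_maps_to (s := S)
        (t := (Finset.univ : Finset (Fin N))) (f := fun x => x j) (fun a _ => Finset.mem_univ _)
        (N ^ r) (by
          intro a _
          refine ih V' hfr' _ ?_
          intro x hx y hy
          rw [Finset.mem_filter] at hx hy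
          refine ⟨hS x hx.1 y hy.1, ?_⟩
          rw [SetLike.mem_coe, LinearMap.mem_ker, hcoord, hx.2, hy.2, sub_self])
      rw [Finset.card_univ, Fintype.card_fin] at hcard
      rw [pow_succ]
      exact hcard

theorem coe_sum {d : ℕ} (K : IntermediateField ℚ ℂ) (ω : Fin d → K) (a : Fin d → ℚ) :
    ((∑ j, a j • ω j : K) : ℂ) = ∑ j, (a j : ℂ) * (ω j : ℂ) := by
  have h : K.val (∑ j, a j • ω j) = ∑ j, (a j : ℂ) * (ω j : ℂ) := by
    rw [map_sum]
    refine Finset.sum_congr rfl fun j _ => ?_
    rw [Algebra.smul_def, map_mul, eq_ratCast, map_ratCast]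
    rfl
  exact h

open scoped Classical in
/-- The number of points of a box of an affine image of `K` with exponential algebraic over `ℚ(w)`. -/
theorem box_count {t d N : ℕ} (hN : 1 ≤ N) (K : IntermediateField ℚ ℂ) (ω : Module.Basis (Fin d) ℚ K)
    {θ γ δ : ℂ} (hθ : θ ≠ 0) (hγ : IsAlgebraic ℚ γ) (hγ0 : γ ≠ 0) (w : Fin t → ℂ) :
    ((Finset.univ : Finset (Fin d → Fin N)).filter (fun x => AlgOver w
      (Complex.exp (θ * (δ + γ * ∑ j, ((x j : ℕ) : ℂ) * (ω j : ℂ)))))).card ≤
      N ^ (d - d / mm t t) := by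
  have hc := codim K ω hθ hγ hγ0 w
  refine points hN ω (d - d / mm t t) (badSpace K θ γ w) (by omega) _ ?_
  intro x hx y hy
  rw [Finset.mem_filter] at hx hy
  rw [mem_badSpace, coe_sum]
  have h := exp_lin hx.2 hy.2 1 (-1)
  convert h using 3
  push_cast
  simp only [sub_mul, Finset.sum_sub_distrib]
  ring

end Pool.Agent.Helper87.FT
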