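import Pool.Agent.Helper18.RC.Poly

/-!
# The rectangle theorem with its explicit size

The proof is the one of `Pool.Agent.Helper18.RC.rectangle`; here the size `mm t t` of the rectangle is part of
the statement, with `mm t t = 3 ^ t * (9 * t + 14) - (3 * t + 1)`.
-/

open MvPolynomial Filter Asymptotics Pool.Agent.Helper18.RC

namespace Pool.Agent.Helper87.FT

theorem mm_closed (t j : ℕ) : mm t j + (3 * t + 1) = 3 ^ j * (9 * t + 14) := by
  induction j with
  | zero =>
    simp only [mm, pow_zero]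
    ring
  | succ j ih =>
    rw [mm, pow_succ, show 3 * mm t j + 6 * t + 2 + (3 * t + 1) = 3 * (mm t j + (3 * t + 1)) by ring, ih]
    ring

/-- **The rectangle theorem.** -/
theorem rectangle_mm (t : ℕ) : ∀ (θ : ℂ), θ ≠ 0 → ∀ (β γ : Fin (mm t t) → ℂ),
    (∀ i, IsAlgebraic ℚ (β i)) → (∀ i, IsAlgebraic ℚ (γ i)) →
    LinearIndependent ℚ β → LinearIndependent ℚ γ → ∀ w : Fin t → ℂ,
    ¬ ∀ i j, AlgOver w (Complex.exp (θ * β i * γ j)) := by
  intro θ hθ β γ hβ hγ hβl hγl w hall
  have hle : ∀ j : Fin (t + 1), mm t j ≤ mm t t := fun j => mm_mono t (Nat.lt_succ_iff.1 j.2)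
  have hex := fun j : Fin (t + 1) => exists_poly (t := t) (m := mm t j)
    (by have := mm_ge t j; omega) (by have := mm_ge t j; omega) hθ
    (fun i => β (Fin.castLE (hle j) i)) (fun i => γ (Fin.castLE (hle j) i))
    (fun i => hβ _) (fun i => hγ _)
    (hβl.comp _ (Fin.castLE_injective (hle j))) (hγl.comp _ (Fin.castLE_injective (hle j))) w
    (fun i k => hall _ _)
  choose N₀ hN₀ using hex
  obtain ⟨C, hC, hR⟩ := rank_lemma (fun p : Fin (mm t t) × Fin (mm t t) =>
    Complex.exp (θ * β p.1 * γ p.2)) w (fun p => hall p.1 p.2)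
  set N : ℕ := (∑ j, N₀ j) + ⌈C⌉₊ + 1 with hN
  have hNj : ∀ j, N₀ j ≤ N := by
    intro j
    have := Finset.single_le_sum (f := N₀) (fun i _ => Nat.zero_le _) (Finset.mem_univ j)
    omega
  have hN1 : (1 : ℝ) ≤ N := by
    have : 1 ≤ N := by omega
    exact_mod_cast this
  have hN0 : (0 : ℝ) < N := by linarith
  have hCN : C ≤ N := (Nat.le_ceil C).trans (by
    have : ⌈C⌉₊ ≤ N := by omega
    exact_mod_cast this)
  choose P hP1 hP2 hP3 hP4 using fun j : Fin (t + 1) => hN₀ j N (hNj j)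
  have hinj : ∀ j : Fin (t + 1), Function.Injective
      (Prod.map (Fin.castLE (hle j)) (Fin.castLE (hle j))) := fun j =>
    Function.Injective.prodMap (Fin.castLE_injective (hle j)) (Fin.castLE_injective (hle j))
  have hval : ∀ j : Fin (t + 1), aeval (fun p : Fin (mm t t) × Fin (mm t t) =>
      Complex.exp (θ * β p.1 * γ p.2))
      (rename (Prod.map (Fin.castLE (hle j)) (Fin.castLE (hle j))) (P j)) =
      aeval (fun p : Fin (mm t j) × Fin (mm t j) => Complex.exp
        (θ * β (Fin.castLE (hle j) p.1) * γ (Fin.castLE (hle j) p.2))) (P j) := by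
    intro j
    rw [aeval_rename]
    rfl
  have hpos : ∀ j : Fin (t + 1), 0 < ‖aeval (fun p : Fin (mm t j) × Fin (mm t j) => Complex.exp
        (θ * β (Fin.castLE (hle j) p.1) * γ (Fin.castLE (hle j) p.2))) (P j)‖ := fun j =>
    lt_of_lt_of_le (Real.exp_pos _) (hP3 j)
  have hup : ∀ j : Fin (t + 1), (N : ℝ) ^ (mm t j) ≤ -Real.log ‖aeval (fun p : Fin (mm t j) ×
      Fin (mm t j) => Complex.exp
        (θ * β (Fin.castLE (hle j) p.1) * γ (Fin.castLE (hle j) p.2))) (P j)‖ := by
    intro j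
    have h1 := Real.log_le_log (hpos j) (hP4 j)
    rw [Real.log_exp] at h1
    linarith
  have hlow : ∀ j : Fin (t + 1), -Real.log ‖aeval (fun p : Fin (mm t j) ×
      Fin (mm t j) => Complex.exp
        (θ * β (Fin.castLE (hle j) p.1) * γ (Fin.castLE (hle j) p.2))) (P j)‖ ≤
        (N : ℝ) ^ (3 * mm t j + 1) := by
    intro j
    have h1 := Real.log_le_log (Real.exp_pos _) (hP3 j)
    rw [Real.log_exp] at h1
    linarith
  refine hR (N ^ 6) (fun j => rename (Prod.map (Fin.castLE (hle j)) (Fin.castLE (hle j))) (P j))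
    (Nat.one_le_pow _ _ (by omega)) ?_ ?_ ?_ ?_ ?_
  · intro j
    exact (totalDegree_rename_le _ _).trans (hP1 j)
  · intro j
    rw [L1_rename _ (hinj j)]
    push_cast
    exact hP2 j
  · intro j
    rw [hval j]
    exact norm_pos_iff.1 (hpos j)
  · rw [hval 0]
    refine le_trans ?_ (hup 0)
    push_cast
    calc C * ((N : ℝ) ^ 6) ^ (t + 1) ≤ N * ((N : ℝ) ^ 6) ^ (t + 1) := by gcongr
      _ = (N : ℝ) ^ (6 * t + 7) := by rw [← pow_mul]; ring
      _ ≤ (N : ℝ) ^ (mm t (0 : Fin (t + 1))) := pow_le_pow_right₀ hN1 (by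
          have := mm_ge t ((0 : Fin (t + 1)) : ℕ)
          omega)
  · intro j
    rw [hval, hval]
    refine le_trans ?_ (hup j.succ)
    push_cast
    have h1 := hlow j.castSucc
    calc C * ((N : ℝ) ^ 6) ^ t * (-Real.log ‖_‖)
        ≤ N * ((N : ℝ) ^ 6) ^ t * (N : ℝ) ^ (3 * mm t (j.castSucc : Fin (t + 1)) + 1) := by
          have h2 : 0 ≤ -Real.log ‖aeval (fun p : Fin (mm t (j.castSucc : Fin (t + 1))) ×
            Fin (mm t (j.castSucc : Fin (t + 1))) => Complex.exp
            (θ * β (Fin.castLE (hle j.castSucc) p.1) * γ (Fin.castLE (hle j.castSucc) p.2)))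
              (P j.castSucc)‖ := le_trans (by positivity) (hup j.castSucc)
          exact mul_le_mul (by gcongr) h1 h2 (by positivity)
      _ = (N : ℝ) ^ (3 * mm t (j.castSucc : Fin (t + 1)) + 6 * t + 2) := by
          rw [← pow_mul]; ring
      _ = (N : ℝ) ^ (mm t (j.succ : Fin (t + 1))) := by
          congr 1

end Pool.Agent.Helper87.FT
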